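import Pool.Agent.H53.Lib.R_pool_sql_team_seeded_63374d34.N60.GD.Core

/-!
# Extension of representations from a normal subgroup whose index is prime to the dimension
-/

set_option autoImplicit false
set_option linter.unusedSectionVars false

namespace Pool.Agent.H53.LD

open Pool.Agent.N60.GD
open scoped IsMulCommutative

variable {k : Type*} [Field k] [IsAlgClosed k] [CharZero k] {n : ℕ} {G : Type*} [Group G]

/-- a matrix of determinant one which commutes with an irreducible family -/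
theorem central_of_det {S : Set G} {f : G → GL (Fin n) k} (hf : IrrOn S f) (A : GL (Fin n) k)
    (hA : ∀ h ∈ S, A * f h = f h * A) (hdet : Matrix.GeneralLinearGroup.det A = 1) :
    A ∈ Subgroup.center (GL (Fin n) k) ∧ A ^ n = 1 := by
  obtain ⟨⟨c, hc⟩, h1⟩ := central_of_comm hf A hA
  refine ⟨h1, ?_⟩
  have h2 : (A : Matrix (Fin n) (Fin n) k).det = 1 := by
    rw [← Matrix.GeneralLinearGroup.val_det_apply, hdet, Units.val_one]
  rw [hc, Matrix.det_smul, Matrix.det_one, mul_one, Fintype.card_fin] at h2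
  apply Units.ext
  rw [Units.val_pow_eq_pow_val, hc, smul_pow, h2, one_smul, one_pow, Units.val_one]

/-- **Uniqueness.** -/
theorem ext_unique {N : Subgroup G} [N.Normal] (hcop : N.index.Coprime n)
    {R R' : G →* GL (Fin n) k} (hirr : IrrOn (N : Set G) R)
    (hdet : ∀ g, Matrix.GeneralLinearGroup.det (R g) = Matrix.GeneralLinearGroup.det (R' g))
    (P : GL (Fin n) k) (hP : ∀ u ∈ N, R' u = P * R u * P⁻¹) : ∀ g, R' g = P * R g * P⁻¹ := by
  intro g
  -- the quotient
  let A : GL (Fin n) k := (P⁻¹ * R' g * P) * (R g)⁻¹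
  have hR' : ∀ u ∈ N, P⁻¹ * R' u * P = R u := fun u hu => by rw [hP u hu]; group
  have hA : ∀ h ∈ (N : Set G), A * R h = R h * A := by
    intro h hh
    have h1 : (R g)⁻¹ * R h * R g = R (g⁻¹ * h * g) := by
      rw [map_mul, map_mul, map_inv]
    have hN : g⁻¹ * h * g ∈ N := by
      have := (inferInstance : N.Normal).conj_mem h hh g⁻¹
      rwa [inv_inv] at this
    have h2 : R' (g⁻¹ * h * g) = (R' g)⁻¹ * R' h * R' g := by
      rw [map_mul, map_mul, map_inv]
    calc A * R h = (P⁻¹ * R' g * P) * ((R g)⁻¹ * R h * R g) * (R g)⁻¹ := by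
          simp only [A]; group
      _ = (P⁻¹ * R' g * P) * (P⁻¹ * R' (g⁻¹ * h * g) * P) * (R g)⁻¹ := by
          rw [h1, hR' _ hN]
      _ = (P⁻¹ * R' h * P) * A := by
          rw [h2]; simp only [A]; group
      _ = R h * A := by rw [hR' h hh]
  have hAdet : Matrix.GeneralLinearGroup.det A = 1 := by
    simp only [A, map_mul, map_inv, hdet]
    rw [mul_comm (Matrix.GeneralLinearGroup.det P)⁻¹, mul_assoc _ _ (Matrix.GeneralLinearGroup.det P),
      inv_mul_cancel, mul_one, mul_inv_cancel]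
  obtain ⟨hAc, hAn⟩ := central_of_det hirr A hA hAdet
  have hAg : P⁻¹ * R' g * P = A * R g := by simp only [A]; group
  have hpow : ∀ m : ℕ, P⁻¹ * R' g ^ m * P = A ^ m * R g ^ m := by
    intro m
    have h1 : P⁻¹ * R' g ^ m * P = (P⁻¹ * R' g * P) ^ m := by
      have := conj_pow (a := P⁻¹) (b := R' g) (i := m)
      rw [inv_inv] at this
      exact this.symm
    rw [h1, hAg]
    exact Commute.mul_pow (show Commute A (R g) from (Subgroup.mem_center_iff.1 hAc (R g)).symm) m
  have hAi : A ^ N.index = 1 := by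
    have h1 : g ^ N.index ∈ N := Subgroup.pow_index_mem N g
    have h2 := hpow N.index
    rw [← map_pow, ← map_pow, hR' _ h1] at h2
    exact mul_eq_right.1 h2.symm
  have hA1 : A = 1 := by
    have h1 : orderOf A ∣ N.index := orderOf_dvd_of_pow_eq_one hAi
    have h2 : orderOf A ∣ n := orderOf_dvd_of_pow_eq_one hAn
    have h3 := Nat.dvd_gcd h1 h2
    rw [hcop.gcd_eq_one] at h3
    exact orderOf_eq_one_iff.1 (Nat.dvd_one.1 h3)
  rw [hA1, one_mul] at hAg
  rw [← hAg]
  group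

/-- **Existence.** -/
theorem ext_exists {N : Subgroup G} [N.Normal] (hcop : N.index.Coprime n) (hidx : N.index ≠ 0)
    {τ : G → GL (Fin n) k} (hτ : ∀ u ∈ N, ∀ v ∈ N, τ (u * v) = τ u * τ v)
    (hirr : IrrOn (N : Set G) τ)
    (htr : ∀ g : G, ∀ u ∈ N, (τ (g * u * g⁻¹) : Matrix (Fin n) (Fin n) k).trace =
      (τ u : Matrix (Fin n) (Fin n) k).trace)
    (δ : G →* kˣ) (hδ : ∀ u ∈ N, Matrix.GeneralLinearGroup.det (τ u) = δ u) :
    ∃ R : G →* GL (Fin n) k, (∀ u ∈ N, R u = τ u) ∧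
      ∀ g, Matrix.GeneralLinearGroup.det (R g) = δ g := by
  classical
  have hn : 0 < n := hirr.1
  have hconj : ∀ (x m : G), m ∈ N → x * m * x⁻¹ ∈ N := fun x m hm =>
    Subgroup.Normal.conj_mem inferInstance m hm x
  have hFI : N.FiniteIndex := ⟨hidx⟩
  have hfin : Finite (G ⧸ N) := Subgroup.finite_quotient_of_finiteIndex
  have : Fintype (G ⧸ N) := Fintype.ofFinite _
  have hinv : ∀ u ∈ N, τ u⁻¹ = (τ u)⁻¹ := by
    intro u hu
    have h1 : τ 1 = 1 := by
      have h2 := hτ 1 N.one_mem 1 N.one_mem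
      rw [mul_one] at h2
      exact mul_eq_left.1 h2.symm
    have h2 := hτ u⁻¹ (N.inv_mem hu) u hu
    rw [inv_mul_cancel, h1] at h2
    exact eq_inv_of_mul_eq_one_left h2.symm
  -- the matrices for the representatives
  have hM : ∀ g : G, ∃ M : GL (Fin n) k, (∀ u ∈ N, M * τ u * M⁻¹ = τ (g * u * g⁻¹)) ∧
      Matrix.GeneralLinearGroup.det M = δ g := by
    intro g
    obtain ⟨P, hP⟩ := conj_of_trace N (f := τ) (f' := fun m => τ (g * m * g⁻¹)) hτ
      (fun u hu v hv => by
        have h1 : g * (u * v) * g⁻¹ = (g * u * g⁻¹) * (g * v * g⁻¹) := by group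
        change τ (g * (u * v) * g⁻¹) = _
        rw [h1, hτ _ (hconj g u hu) _ (hconj g v hv)]) hirr
      ⟨hn, fun W hW => hirr.2 W fun h hh w hw => by
        have h1 := hW (g⁻¹ * h * g⁻¹⁻¹) (hconj g⁻¹ h hh) w hw
        have h2 : g * (g⁻¹ * h * g⁻¹⁻¹) * g⁻¹ = h := by group
        change (τ (g * (g⁻¹ * h * g⁻¹⁻¹) * g⁻¹) : Matrix (Fin n) (Fin n) k).mulVec w ∈ W at h1
        rwa [h2] at h1⟩
      (fun u hu => (htr g u hu).symm)
    obtain ⟨z, hz⟩ := IsAlgClosed.exists_pow_nat_eq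
      ((δ g * (Matrix.GeneralLinearGroup.det P)⁻¹ : kˣ) : k) hn
    have hz0 : z ≠ 0 := by
      rintro rfl
      rw [zero_pow hn.ne'] at hz
      exact (Units.ne_zero _) hz.symm
    let Z : GL (Fin n) k := Units.map (algebraMap k (Matrix (Fin n) (Fin n) k)).toMonoidHom
      (Units.mk0 z hz0)
    have hZv : (Z : Matrix (Fin n) (Fin n) k) = z • 1 := by
      change algebraMap k (Matrix (Fin n) (Fin n) k) z = _
      rw [Algebra.algebraMap_eq_smul_one]
    have hZc : ∀ B : GL (Fin n) k, Z * B = B * Z := fun B => by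
      apply Units.ext
      rw [Units.val_mul, Units.val_mul, hZv, Matrix.smul_mul, Matrix.mul_smul, one_mul, mul_one]
    have hZd : Matrix.GeneralLinearGroup.det Z = δ g * (Matrix.GeneralLinearGroup.det P)⁻¹ := by
      apply Units.ext
      rw [Matrix.GeneralLinearGroup.val_det_apply, hZv, Matrix.det_smul, Matrix.det_one, mul_one,
        Fintype.card_fin, hz]
    refine ⟨Z * P, fun u hu => ?_, ?_⟩
    · rw [hP u hu, mul_inv_rev]
      calc Z * P * τ u * (P⁻¹ * Z⁻¹) = Z * (P * τ u * P⁻¹) * Z⁻¹ := by group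
        _ = P * τ u * P⁻¹ := by rw [hZc, mul_inv_cancel_right]
    · rw [map_mul, hZd, inv_mul_cancel_right]
  choose M hM hMdet using hM
  let s : G ⧸ N → G := Quotient.out
  have hs : ∀ x : G ⧸ N, (QuotientGroup.mk (s x) : G ⧸ N) = x := fun x => Quotient.out_eq' x
  let q : G → G ⧸ N := fun g => QuotientGroup.mk g
  have hsN : ∀ g, (s (q g))⁻¹ * g ∈ N := fun g => QuotientGroup.eq.1 (hs (q g))
  let T : G → GL (Fin n) k := fun g => M (s (q g)) * τ ((s (q g))⁻¹ * g)
  have hT : ∀ g, T g = M (s (q g)) * τ ((s (q g))⁻¹ * g) := fun g => rfl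
  have hTc : ∀ g, ∀ u ∈ N, T g * τ u * (T g)⁻¹ = τ (g * u * g⁻¹) := by
    intro g u hu
    have h0 := hsN g
    have h1 : T g * τ u * (T g)⁻¹ = M (s (q g)) * (τ ((s (q g))⁻¹ * g) * τ u *
        (τ ((s (q g))⁻¹ * g))⁻¹) * (M (s (q g)))⁻¹ := by
      rw [hT]; group
    rw [h1, ← hinv _ h0, ← hτ _ h0 _ hu, ← hτ _ (N.mul_mem h0 hu) _ (N.inv_mem h0),
      hM _ _ (N.mul_mem (N.mul_mem h0 hu) (N.inv_mem h0))]
    congr 1
    group
  have hTd : ∀ g, Matrix.GeneralLinearGroup.det (T g) = δ g := by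
    intro g
    rw [hT, map_mul, hMdet, hδ _ (hsN g), ← map_mul, mul_inv_cancel_left]
  have hTr : ∀ g, ∀ u ∈ N, T (g * u) = T g * τ u := by
    intro g u hu
    have h1 : q (g * u) = q g := by
      apply QuotientGroup.eq.2
      have h2 : (g * u)⁻¹ * g = u⁻¹ := by group
      rw [h2]
      exact N.inv_mem hu
    rw [hT, hT, h1, ← mul_assoc, hτ _ (hsN g) _ hu, mul_assoc]
  have hTl : ∀ g, ∀ u ∈ N, T (u * g) = τ u * T g := by
    intro g u hu
    have h1 : u * g = g * (g⁻¹ * u * g⁻¹⁻¹) := by group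
    have h2 := hTc g (g⁻¹ * u * g⁻¹⁻¹) (hconj g⁻¹ u hu)
    have h3 : g * (g⁻¹ * u * g⁻¹⁻¹) * g⁻¹ = u := by group
    rw [h3] at h2
    rw [h1, hTr g _ (hconj g⁻¹ u hu), ← h2, inv_mul_cancel_right]
  -- the cocycle
  let c : G → G → GL (Fin n) k := fun g h => T g * T h * (T (g * h))⁻¹
  have hc : ∀ g h, c g h = T g * T h * (T (g * h))⁻¹ := fun g h => rfl
  have hcT : ∀ g h, T g * T h = c g h * T (g * h) := fun g h => by
    rw [hc, inv_mul_cancel_right]
  have hcc : ∀ g h, c g h ∈ Subgroup.center (GL (Fin n) k) ∧ c g h ^ n = 1 := by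
    intro g h
    refine central_of_det hirr _ (fun u hu => ?_) ?_
    · have h1 := hTc (g * h) ((g * h)⁻¹ * u * (g * h)⁻¹⁻¹) (hconj _ u hu)
      have h2 : (g * h) * ((g * h)⁻¹ * u * (g * h)⁻¹⁻¹) * (g * h)⁻¹ = u := by group
      rw [h2] at h1
      have h3 := hTc h ((g * h)⁻¹ * u * (g * h)⁻¹⁻¹) (hconj _ u hu)
      have h4 : h * ((g * h)⁻¹ * u * (g * h)⁻¹⁻¹) * h⁻¹ = g⁻¹ * u * g⁻¹⁻¹ := by group
      rw [h4] at h3
      have h5 := hTc g (g⁻¹ * u * g⁻¹⁻¹) (hconj _ u hu)
      have h6 : g * (g⁻¹ * u * g⁻¹⁻¹) * g⁻¹ = u := by group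
      rw [h6] at h5
      calc c g h * τ u = T g * T h * ((T (g * h))⁻¹ * τ u * T (g * h)) * (T (g * h))⁻¹ := by
            rw [hc]; group
        _ = T g * T h * τ ((g * h)⁻¹ * u * (g * h)⁻¹⁻¹) * (T (g * h))⁻¹ := by
            rw [← h1]; congr 2; group
        _ = T g * (T h * τ ((g * h)⁻¹ * u * (g * h)⁻¹⁻¹) * (T h)⁻¹) * (T g)⁻¹ * (T g * T h) *
            (T (g * h))⁻¹ := by group
        _ = τ u * c g h := by rw [h3, h5, hc]; group
    · rw [hc, map_mul, map_mul, map_inv, hTd, hTd, hTd, map_mul, mul_inv_cancel]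
  have hcomm : ∀ g h (B : GL (Fin n) k), c g h * B = B * c g h := fun g h B =>
    (Subgroup.mem_center_iff.1 (hcc g h).1 B).symm
  have hcr : ∀ g h, ∀ u ∈ N, c g (h * u) = c g h := by
    intro g h u hu
    rw [hc, hc, ← mul_assoc g h u, hTr _ _ hu, hTr _ _ hu]
    group
  have hcoc : ∀ g h l, c g h * c (g * h) l = c h l * c g (h * l) := by
    intro g h l
    have h1 : T g * T h * T l = c g h * c (g * h) l * T (g * h * l) := by
      calc T g * T h * T l = c g h * T (g * h) * T l := by rw [hcT g h]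
        _ = c g h * (T (g * h) * T l) := mul_assoc _ _ _
        _ = c g h * (c (g * h) l * T (g * h * l)) := by rw [hcT (g * h) l]
        _ = _ := (mul_assoc _ _ _).symm
    have h2 : T g * T h * T l = c h l * c g (h * l) * T (g * h * l) := by
      rw [mul_assoc (T g), hcT h l, ← mul_assoc, ← hcomm h l (T g), mul_assoc, hcT, ← mul_assoc,
        mul_assoc g h l]
    exact mul_right_cancel (h1.symm.trans h2)
  -- in the centre
  let C : G → G → Subgroup.center (GL (Fin n) k) := fun g h => ⟨c g h, (hcc g h).1⟩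
  have hC : ∀ g h, ((C g h : Subgroup.center (GL (Fin n) k)) : GL (Fin n) k) = c g h :=
    fun g h => rfl
  have hCr : ∀ g h, ∀ u ∈ N, C g (h * u) = C g h := fun g h u hu => Subtype.ext (hcr g h u hu)
  have hCoc : ∀ g h l, C g h * C (g * h) l = C h l * C g (h * l) := fun g h l =>
    Subtype.ext (hcoc g h l)
  have hCn : ∀ g h, C g h ^ n = 1 := fun g h => Subtype.ext (hcc g h).2
  let φ : G → Subgroup.center (GL (Fin n) k) := fun g => ∏ l : G ⧸ N, C g (s l)
  have hφ : ∀ g, φ g = ∏ l : G ⧸ N, C g (s l) := fun g => rfl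
  have hφn : ∀ g, φ g ^ n = 1 := by
    intro g
    rw [hφ, ← Finset.prod_pow]
    exact Finset.prod_eq_one fun l _ => hCn g _
  have hCs : ∀ g h, C g (s (q h)) = C g h := by
    intro g h
    have h1 : h = s (q h) * ((s (q h))⁻¹ * h) := by group
    conv_rhs => rw [h1]
    exact (hCr _ _ _ (hsN h)).symm
  have hkey : ∀ g h, C g h ^ Fintype.card (G ⧸ N) * φ (g * h) = φ g * φ h := by
    intro g h
    have h1 : ∏ l : G ⧸ N, (C g h * C (g * h) (s l)) =
        ∏ l : G ⧸ N, (C h (s l) * C g (h * s l)) :=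
      Finset.prod_congr rfl fun l _ => hCoc g h (s l)
    rw [Finset.prod_mul_distrib, Finset.prod_mul_distrib, Finset.prod_const, Finset.card_univ] at h1
    have h2 : ∏ l : G ⧸ N, C g (h * s l) = φ g := by
      rw [hφ]
      refine Fintype.prod_equiv (Equiv.mulLeft (q h)) _ _ fun l => ?_
      have h3 : (Equiv.mulLeft (q h)) l = q (h * s l) := by
        change (QuotientGroup.mk h : G ⧸ N) * l = QuotientGroup.mk (h * s l)
        rw [QuotientGroup.mk_mul, hs]
      rw [h3, hCs]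
    rw [h2, ← hφ, ← hφ] at h1
    rw [h1, mul_comm]
  -- the exponent
  have hcard : Fintype.card (G ⧸ N) = N.index := by
    rw [Subgroup.index, Nat.card_eq_fintype_card]
  obtain ⟨e, he⟩ : ∃ e : ℕ, ∀ x : Subgroup.center (GL (Fin n) k), x ^ n = 1 →
      (x ^ Fintype.card (G ⧸ N)) ^ e = x := by
    rw [hcard]
    rcases Nat.lt_or_ge 1 n with h1n | h1n
    · obtain ⟨e, -, he⟩ := Nat.exists_mul_mod_eq_one_of_coprime hcop h1n
      refine ⟨e, fun x hx => ?_⟩
      rw [← pow_mul]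
      have h1 := Nat.div_add_mod (N.index * e) n
      rw [he] at h1
      rw [← h1, pow_add, pow_mul, hx, one_pow, one_mul, pow_one]
    · refine ⟨1, fun x hx => ?_⟩
      have h2 : n = 1 := by omega
      have h3 : orderOf x ∣ n := orderOf_dvd_of_pow_eq_one hx
      have h4 := Nat.le_of_dvd hn h3
      have h5 := Nat.pos_of_dvd_of_pos h3 hn
      have h6 : orderOf x = 1 := by omega
      rw [orderOf_eq_one_iff.1 h6, one_pow, one_pow]
  have hrel : ∀ g h, C g h * φ (g * h) ^ e = φ g ^ e * φ h ^ e := by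
    intro g h
    have h1 := congrArg (· ^ e) (hkey g h)
    simp only [mul_pow] at h1
    rwa [he _ (hCn g h)] at h1
  let R : G → GL (Fin n) k := fun g => ((φ g ^ e)⁻¹ : Subgroup.center (GL (Fin n) k)) * T g
  have hcen : ∀ (x : Subgroup.center (GL (Fin n) k)) (B : GL (Fin n) k),
      (x : GL (Fin n) k) * B = B * x := fun x B => (Subgroup.mem_center_iff.1 x.2 B).symm
  have hRm : ∀ g h, R (g * h) = R g * R h := by
    intro g h
    have h1 : R g * R h = (((φ g ^ e)⁻¹ * (φ h ^ e)⁻¹ * C g h :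
        Subgroup.center (GL (Fin n) k)) : GL (Fin n) k) * T (g * h) := by
      change ((φ g ^ e)⁻¹ : Subgroup.center (GL (Fin n) k)) * T g *
        (((φ h ^ e)⁻¹ : Subgroup.center (GL (Fin n) k)) * T h) = _
      calc (((φ g ^ e)⁻¹ : Subgroup.center (GL (Fin n) k)) : GL (Fin n) k) * T g *
            ((((φ h ^ e)⁻¹ : Subgroup.center (GL (Fin n) k)) : GL (Fin n) k) * T h)
          = ((φ g ^ e)⁻¹ : Subgroup.center (GL (Fin n) k)) *
            (T g * ((φ h ^ e)⁻¹ : Subgroup.center (GL (Fin n) k))) * T h := by group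
        _ = ((φ g ^ e)⁻¹ : Subgroup.center (GL (Fin n) k)) *
            (((φ h ^ e)⁻¹ : Subgroup.center (GL (Fin n) k)) * T g) * T h := by
              rw [hcen ((φ h ^ e)⁻¹) (T g)]
        _ = ((φ g ^ e)⁻¹ : Subgroup.center (GL (Fin n) k)) *
            ((φ h ^ e)⁻¹ : Subgroup.center (GL (Fin n) k)) * (T g * T h) := by group
        _ = _ := by
          rw [hcT, Subgroup.coe_mul, Subgroup.coe_mul, hC]
          group
    rw [h1]
    change (((φ (g * h) ^ e)⁻¹ : Subgroup.center (GL (Fin n) k)) : GL (Fin n) k) * T (g * h) = _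
    congr 2
    rw [← mul_inv, ← hrel, mul_inv, mul_comm (C g h)⁻¹, inv_mul_cancel_right]
  have hR1 : R 1 = 1 := by
    have h1 := hRm 1 1
    rw [mul_one] at h1
    exact mul_eq_left.1 h1.symm
  refine ⟨⟨⟨R, hR1⟩, hRm⟩, ?_, ?_⟩
  · intro u hu
    -- `T u = z τ u` on `N`
    have hcu : ∀ l, c u l = T u * (τ u)⁻¹ := by
      intro l
      rw [hc, hTl l u hu]
      group
    have hz : T u * (τ u)⁻¹ = c u 1 := (hcu 1).symm
    have hTu : T u = c u 1 * τ u := by rw [← hz, inv_mul_cancel_right]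
    have hφu : φ u = C u 1 ^ Fintype.card (G ⧸ N) := by
      rw [hφ, ← Finset.card_univ, ← Finset.prod_const]
      refine Finset.prod_congr rfl fun l _ => Subtype.ext ?_
      rw [hC, hC, hcu, hcu]
    change (((φ u ^ e)⁻¹ : Subgroup.center (GL (Fin n) k)) : GL (Fin n) k) * T u = τ u
    rw [hφu, he _ (hCn u 1), hTu, Subgroup.coe_inv, hC, inv_mul_cancel_left]
  · intro g
    change Matrix.GeneralLinearGroup.det ((((φ g ^ e)⁻¹ : Subgroup.center (GL (Fin n) k)) :
      GL (Fin n) k) * T g) = δ g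
    rw [map_mul, hTd]
    have h1 : Matrix.GeneralLinearGroup.det ((((φ g ^ e)⁻¹ : Subgroup.center (GL (Fin n) k)) :
        GL (Fin n) k)) = 1 := by
      have hx : ((φ g ^ e)⁻¹ : Subgroup.center (GL (Fin n) k)) ^ n = 1 := by
        rw [inv_pow, ← pow_mul, mul_comm, pow_mul, hφn, one_pow, inv_one]
      generalize ((φ g ^ e)⁻¹ : Subgroup.center (GL (Fin n) k)) = x at hx
      obtain ⟨⟨z, hz⟩, -⟩ := central_of_comm hirr (x : GL (Fin n) k) fun h _ => hcen x _
      have h2 : (x : GL (Fin n) k) ^ n = 1 := by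
        rw [← Subgroup.coe_pow, hx, Subgroup.coe_one]
      have h3 := congrArg Units.val h2
      rw [Units.val_pow_eq_pow_val, hz, smul_pow, one_pow, Units.val_one] at h3
      have hne : Nonempty (Fin n) := ⟨⟨0, hn⟩⟩
      have h4 : z ^ n = 1 := by
        have := congrFun (congrFun h3 ⟨0, hn⟩) ⟨0, hn⟩
        simpa using this
      apply Units.ext
      rw [Matrix.GeneralLinearGroup.val_det_apply, hz, Matrix.det_smul, Matrix.det_one, mul_one,
        Fintype.card_fin, h4, Units.val_one]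
    rw [h1, one_mul]

end Pool.Agent.H53.LD
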