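import Pool.Agent.H53.LD.Root
import Pool.Agent.H53.LD.Ext
import Pool.Agent.H53.Lib.R_pool_sql_team_seeded_3997aac3.Q227.CD.Orb

/-!
# Characteristic polynomials
-/

set_option autoImplicit false

namespace Pool.Agent.H53.LD

open Polynomial IntermediateField
open Pool.Agent.N60.GD

variable {l : ℕ} [Fact l.Prime] {E : IntermediateField ℚ_[l] (PadicAlgCl l)} {n : ℕ}

/-- the coefficients lie in `E` -/
def CoeffIn (E : IntermediateField ℚ_[l] (PadicAlgCl l)) (p : (PadicAlgCl l)[X]) : Prop :=
  ∀ i, p.coeff i ∈ E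

theorem CoeffIn.exists {p : (PadicAlgCl l)[X]} (h : CoeffIn E p) :
    ∃ P : E[X], P.map (algebraMap E (PadicAlgCl l)) = p := by
  have h1 : p ∈ Polynomial.lifts (algebraMap E (PadicAlgCl l)) := by
    rw [Polynomial.lifts_iff_coeff_lifts]
    intro i
    exact ⟨⟨p.coeff i, h i⟩, rfl⟩
  obtain ⟨P, hP⟩ := (Polynomial.mem_lifts p).1 h1
  exact ⟨P, hP⟩

theorem CoeffIn.degLE {p : (PadicAlgCl l)[X]} (h : CoeffIn E p) (hp : p.Monic)
    (hd : p.natDegree ≤ n) {x : PadicAlgCl l} (hx : p.eval x = 0) : DegLE E n x := by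
  obtain ⟨P, rfl⟩ := h.exists
  refine ⟨P, Polynomial.monic_of_injective (algebraMap E (PadicAlgCl l)).injective hp, ?_, ?_⟩
  · rwa [natDegree_map] at hd
  · rwa [eval_map_algebraMap] at hx

theorem multiset_eq {α β : Type*} [Nonempty α] {A B : Multiset α} {g : α → β}
    (hg : ∀ x, x ∈ A ∨ x ∈ B → ∀ y, y ∈ A ∨ y ∈ B → g x = g y → x = y)
    (h : A.map g = B.map g) : A = B := by
  let s : Set α := {x | x ∈ A ∨ x ∈ B}
  have hinj : Set.InjOn g s := fun x hx y hy hxy => hg x hx y hy hxy
  have hl := hinj.leftInvOn_invFunOn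
  have h1 := congrArg (Multiset.map (Function.invFunOn g s)) h
  rw [Multiset.map_map, Multiset.map_map] at h1
  have h2 : A.map (Function.invFunOn g s ∘ g) = A := by
    conv_rhs => rw [← Multiset.map_id A]
    exact Multiset.map_congr rfl fun x hx => hl (Or.inl hx)
  have h3 : B.map (Function.invFunOn g s ∘ g) = B := by
    conv_rhs => rw [← Multiset.map_id B]
    exact Multiset.map_congr rfl fun x hx => hl (Or.inr hx)
  rwa [h2, h3] at h1

variable [FiniteDimensional ℚ_[l] E]

theorem charpoly_eq (A : Matrix (Fin n) (Fin n) (PadicAlgCl l)) (α : Fin n → PadicAlgCl l)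
    (hA : CoeffIn E A.charpoly) (hα : CoeffIn E (∏ i, (X - C (α i)))) (hA0 : A.det ≠ 0)
    (hα0 : ∀ i, α i ≠ 0) {f : ℕ} (hf : f ≠ 0)
    (hbig : ∀ q : ℕ, q.Prime → q ∣ f → l ^ (n ^ 2 * Module.finrank ℚ_[l] E) < q)
    (h : (A ^ f).charpoly = ∏ i, (X - C (α i ^ f))) : A.charpoly = ∏ i, (X - C (α i)) := by
  have hsplit : A.charpoly = (A.charpoly.roots.map fun x => X - C x).prod :=
    (IsAlgClosed.splits A.charpoly).eq_prod_roots_of_monic A.charpoly_monic
  have hmα : (∏ i, (X - C (α i))).Monic := monic_prod_X_sub_C _ _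
  have hdα : (∏ i, (X - C (α i))).natDegree ≤ n := by
    rw [natDegree_prod_of_monic _ _ fun i _ => monic_X_sub_C _]
    simp
  have hdA : A.charpoly.natDegree ≤ n := by
    rw [Matrix.charpoly_natDegree_eq_dim, Fintype.card_fin]
  have hB : ∀ x ∈ A.charpoly.roots, DegLE E n x ∧ x ≠ 0 := by
    intro x hx
    rw [mem_roots A.charpoly_monic.ne_zero, IsRoot.def] at hx
    refine ⟨hA.degLE A.charpoly_monic hdA hx, ?_⟩
    rintro rfl
    apply hA0
    rw [Matrix.det_eq_sign_charpoly_coeff, Polynomial.coeff_zero_eq_eval_zero, hx, mul_zero]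
  have hC : ∀ x ∈ (Finset.univ.val.map α), DegLE E n x ∧ x ≠ 0 := by
    intro x hx
    obtain ⟨i, -, rfl⟩ := Multiset.mem_map.1 hx
    refine ⟨hα.degLE hmα hdα ?_, hα0 i⟩
    rw [eval_prod]
    exact Finset.prod_eq_zero (Finset.mem_univ i) (by simp)
  have hroots : A.charpoly.roots.map (fun x => x ^ f) =
      (Finset.univ.val.map α).map (fun x => x ^ f) := by
    rw [Pool.Agent.Q227.CD.charpoly_pow] at h
    have h2 : (A.charpoly.roots.map fun x => X - C (x ^ f)) =
        ((A.charpoly.roots.map fun x => x ^ f).map fun a => X - C a) := by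
      rw [Multiset.map_map]; rfl
    have h3 : ∏ i, (X - C (α i ^ f)) =
        (((Finset.univ.val.map α).map fun x => x ^ f).map fun a => X - C a).prod := by
      rw [Multiset.map_map, Multiset.map_map]; rfl
    rw [h2, h3] at h
    have h4 := congrArg Polynomial.roots h
    rwa [roots_multiset_prod_X_sub_C, roots_multiset_prod_X_sub_C] at h4
  have key : A.charpoly.roots = Finset.univ.val.map α := by
    refine multiset_eq (g := fun x => x ^ f) ?_ hroots
    intro x hx y hy hxy
    have hx' : DegLE E n x ∧ x ≠ 0 := hx.elim (hB x) (hC x)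
    have hy' : DegLE E n y ∧ y ≠ 0 := hy.elim (hB y) (hC y)
    exact eq_of_pow_eq hx'.1 hy'.1 hy'.2 hf hbig hxy
  rw [hsplit, key, Multiset.map_map]
  rfl

/-- **The field of coefficients of the extension.** -/
theorem coeff_extension {G : Type*} [Group G] {N : Subgroup G} [N.Normal]
    (hcop : N.index.Coprime n) {R : G →* GL (Fin n) (PadicAlgCl l)} (hirr : IrrOn (N : Set G) R)
    (htr : ∀ u ∈ N, (R u : Matrix (Fin n) (Fin n) (PadicAlgCl l)).trace ∈ E)
    (hdet : ∀ g, (R g : Matrix (Fin n) (Fin n) (PadicAlgCl l)).det ∈ E) (g : G) :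
    CoeffIn E (R g : Matrix (Fin n) (Fin n) (PadicAlgCl l)).charpoly := by
  intro i
  have key : ∀ θ : PadicAlgCl l ≃ₐ[E] PadicAlgCl l,
      θ ((R g : Matrix (Fin n) (Fin n) (PadicAlgCl l)).charpoly.coeff i) =
        (R g : Matrix (Fin n) (Fin n) (PadicAlgCl l)).charpoly.coeff i := by
    intro θ
    let θ' : PadicAlgCl l →+* PadicAlgCl l := (θ : PadicAlgCl l →+* PadicAlgCl l)
    let R' : G →* GL (Fin n) (PadicAlgCl l) := (Matrix.GeneralLinearGroup.map θ').comp R
    have hR' : ∀ g, (R' g : Matrix (Fin n) (Fin n) (PadicAlgCl l)) =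
        (R g : Matrix (Fin n) (Fin n) (PadicAlgCl l)).map θ' := fun g => rfl
    have hfix : ∀ x ∈ E, θ x = x := fun x hx => θ.commutes ⟨x, hx⟩
    have htr' : ∀ u ∈ N, (R u : Matrix (Fin n) (Fin n) (PadicAlgCl l)).trace =
        (R' u : Matrix (Fin n) (Fin n) (PadicAlgCl l)).trace := by
      intro u hu
      rw [hR']
      have h1 : ((R u : Matrix (Fin n) (Fin n) (PadicAlgCl l)).map θ').trace =
          θ' (R u : Matrix (Fin n) (Fin n) (PadicAlgCl l)).trace :=
        (AddMonoidHom.map_trace θ' _).symm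
      rw [h1]
      exact (hfix _ (htr u hu)).symm
    have hdet' : ∀ g, Matrix.GeneralLinearGroup.det (R g) = Matrix.GeneralLinearGroup.det (R' g) := by
      intro g
      apply Units.ext
      rw [Matrix.GeneralLinearGroup.val_det_apply, Matrix.GeneralLinearGroup.val_det_apply, hR']
      have h1 : ((R g : Matrix (Fin n) (Fin n) (PadicAlgCl l)).map θ').det =
          θ' (R g : Matrix (Fin n) (Fin n) (PadicAlgCl l)).det := (RingHom.map_det θ' _).symm
      rw [h1]
      exact (hfix _ (hdet g)).symm
    have hirr' : IrrOn (N : Set G) R' := by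
      refine ⟨hirr.1, fun W hW => ?_⟩
      let W' : Submodule (PadicAlgCl l) (Fin n → PadicAlgCl l) :=
        { carrier := {w | (fun i => θ (w i)) ∈ W}
          add_mem' := fun {a b} ha hb => by
            have h1 := W.add_mem ha hb
            change (fun i => θ (a i + b i)) ∈ W
            simp only [map_add]
            exact h1
          zero_mem' := by
            change (fun i : Fin n => θ (0 : PadicAlgCl l)) ∈ W
            simp only [map_zero]
            exact W.zero_mem
          smul_mem' := fun c a ha => by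
            have h1 := W.smul_mem (θ c) ha
            change (fun i => θ (c * a i)) ∈ W
            simp only [map_mul]
            exact h1 }
      have hW' : ∀ w, w ∈ W' ↔ (fun i => θ (w i)) ∈ W := fun w => Iff.rfl
      rcases hirr.2 W' (fun u hu w hw => by
        rw [hW'] at hw ⊢
        have h1 := hW u hu _ hw
        rw [hR'] at h1
        convert h1 using 1
        funext i
        simp only [Matrix.mulVec, dotProduct, map_sum, map_mul, Matrix.map_apply]
        rfl) with h | h
      · left
        rw [Submodule.eq_bot_iff] at h ⊢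
        intro w hw
        have h1 := h (fun i => θ.symm (w i)) (by
          rw [hW']
          simpa using hw)
        funext i
        have h2 := congrFun h1 i
        simp only [Pi.zero_apply] at h2 ⊢
        have h3 := congrArg θ h2
        simpa using h3
      · right
        rw [eq_top_iff]
        intro w _
        have h1 : (fun i => θ.symm (w i)) ∈ W' := by rw [h]; trivial
        rw [hW'] at h1
        simpa using h1
    obtain ⟨P, hP⟩ := conj_of_trace N (f := R) (f' := R') (fun u _ v _ => map_mul R u v)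
      (fun u _ v _ => map_mul R' u v) hirr hirr' htr'
    have h1 := ext_unique hcop hirr hdet' P hP g
    have h2 : (R' g : Matrix (Fin n) (Fin n) (PadicAlgCl l)).charpoly =
        (R g : Matrix (Fin n) (Fin n) (PadicAlgCl l)).charpoly := by
      rw [h1, Units.val_mul, Units.val_mul, Matrix.coe_units_inv]
      exact Matrix.charpoly_units_conj P _
    rw [hR', Matrix.charpoly_map] at h2
    have h3 := congrArg (fun p => p.coeff i) h2
    simp only [coeff_map] at h3
    exact h3
  have h1 := (InfiniteGalois.mem_bot_iff_fixed (k := E) (K := PadicAlgCl l) _).2 key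
  obtain ⟨e, he⟩ := IntermediateField.mem_bot.1 h1
  rw [← he]
  exact e.2

end Pool.Agent.H53.LD
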