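import Pool.Agent.H53.DC.Def

/-!
# The layers of the cyclotomic `ℤ_q`-extension have no small primes
-/

set_option autoImplicit false

namespace Pool.Agent.H53.LD

open NumberField IsDedekindDomain
open Pool.Agent.W401.Cheb (GK IsFrob IsInert)
open Pool.Agent.H53.DC (IsFrobPow)

section dom

variable {R : Type*} [CommRing R] [IsDomain R]

theorem eq_of_sub_mem {Q : Ideal R} {M : ℕ} (hM0 : 0 < M) (hM : (M : R) ∉ Q) {z w : R}
    (hz : z ^ M = 1) (hw : w ^ M = 1) (h : z - w ∈ Q) : z = w := by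
  let u := z ^ (M - 1) * w
  have hzM : z ^ (M - 1) * z = 1 := by rw [← pow_succ, Nat.sub_add_cancel hM0, hz]
  have hu : u ^ M = 1 := by
    simp only [u]
    rw [mul_pow, hw, mul_one, ← pow_mul, mul_comm, pow_mul, hz, one_pow]
  have hu1 : u - 1 ∈ Q := by
    have h1 : u - 1 = -(z ^ (M - 1)) * (z - w) := by
      simp only [u]
      linear_combination hzM
    rw [h1]
    exact Q.mul_mem_left _ h
  have hu2 : u = 1 := by
    by_contra hne
    have h1 : ∑ i ∈ Finset.range M, u ^ i = 0 := by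
      have h2 := mul_geom_sum u M
      rw [hu, sub_self] at h2
      exact (mul_eq_zero.1 h2).resolve_left (sub_ne_zero.2 hne)
    apply hM
    have h3 : (M : R) = ∑ i ∈ Finset.range M, (1 - u ^ i) := by
      rw [Finset.sum_sub_distrib, h1, sub_zero]
      simp
    rw [h3]
    refine Q.sum_mem fun i _ => ?_
    have h4 : u ^ i - 1 ∈ Q := by
      have h5 := sub_one_mul_dvd_aux u i
      obtain ⟨c, hc⟩ := h5
      rw [hc]
      exact Q.mul_mem_right _ hu1
    have h6 : 1 - u ^ i = -(u ^ i - 1) := by ring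
    rw [h6]
    exact Q.neg_mem h4
  calc z = z * u := by rw [hu2, mul_one]
    _ = (z ^ (M - 1) * z) * w := by simp only [u]; ring
    _ = w := by rw [hzM, one_mul]
where
  sub_one_mul_dvd_aux (u : R) (i : ℕ) : (u - 1) ∣ u ^ i - 1 := by
    have := sub_dvd_pow_sub_pow u 1 i
    rwa [one_pow] at this

end dom

variable {K : Type} [Field K] [NumberField K]

/-- Frobenius elements and roots of unity -/
theorem frob_root {v : HeightOneSpectrum (𝓞 K)} {f : ℕ} {σ : GK K} (hσ : IsFrobPow v f σ) {M : ℕ}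
    (hM0 : 0 < M) (hM : (M : 𝓞 K) ∉ v.asIdeal) {ζ : AlgebraicClosure K} (hζ : ζ ^ M = 1) :
    σ ζ = ζ ^ (Ideal.absNorm v.asIdeal) ^ f := by
  obtain ⟨Q, hQ1, hQ2, hQ3⟩ := hσ
  have hint : IsIntegral ℤ ζ := ⟨Polynomial.X ^ M - 1, Polynomial.monic_X_pow_sub_C 1 hM0.ne', by
    simp [hζ]⟩
  let z : 𝓞 (AlgebraicClosure K) := ⟨ζ, hint⟩
  have hz : z ^ M = 1 := by
    apply NumberField.RingOfIntegers.ext
    simpa [z] using hζ
  have h1 := eq_of_sub_mem (Q := Q) hM0 (fun h => hM (by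
    rw [← hQ2, Ideal.mem_comap, map_natCast]
    exact h)) (z := σ • z) (w := z ^ (Ideal.absNorm v.asIdeal) ^ f)
    (by rw [← smul_pow', hz, smul_one]) (by rw [← pow_mul, mul_comm, pow_mul, hz, one_pow]) (hQ3 z)
  exact congrArg (algebraMap (𝓞 (AlgebraicClosure K)) (AlgebraicClosure K)) h1

/-- inertia and roots of unity -/
theorem inert_root {v : HeightOneSpectrum (𝓞 K)} {σ : GK K} (hσ : IsInert v σ) {M : ℕ}
    (hM0 : 0 < M) (hM : (M : 𝓞 K) ∉ v.asIdeal) {ζ : AlgebraicClosure K} (hζ : ζ ^ M = 1) :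
    σ ζ = ζ := by
  obtain ⟨Q, hQ1, hQ2, hQ3⟩ := hσ
  have hint : IsIntegral ℤ ζ := ⟨Polynomial.X ^ M - 1, Polynomial.monic_X_pow_sub_C 1 hM0.ne', by
    simp [hζ]⟩
  let z : 𝓞 (AlgebraicClosure K) := ⟨ζ, hint⟩
  have hz : z ^ M = 1 := by
    apply NumberField.RingOfIntegers.ext
    simpa [z] using hζ
  have h1 := eq_of_sub_mem (Q := Q) hM0 (fun h => hM (by
    rw [← hQ2, Ideal.mem_comap, map_natCast]
    exact h)) (z := σ • z) (w := z)
    (by rw [← smul_pow', hz, smul_one]) hz (hQ3 z)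
  exact congrArg (algebraMap (𝓞 (AlgebraicClosure K)) (AlgebraicClosure K)) h1

/-- `F` has no prime of norm at most `X` (`N = Gal(K̄/F)`): if an element of `N` acts at `v` as the
`f`-th power of Frobenius, then `N(v) ^ f > X`. -/
def NoSmall (X : ℕ) (N : Subgroup (GK K)) : Prop :=
  ∀ (v : HeightOneSpectrum (𝓞 K)) (f : ℕ) (σ : GK K), σ ∈ N → 0 < f → IsFrobPow v f σ →
    X < (Ideal.absNorm v.asIdeal) ^ f

theorem exists_layer (q m : ℕ) (hq : q.Prime) (hq2 : q ≠ 2) : ∃ N : Subgroup (GK K),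
    (∀ σ, σ ∈ N ↔ ∀ ζ : AlgebraicClosure K, ζ ^ q ^ (m + 1) = 1 → (σ ^ (q - 1)) ζ = ζ) ∧
    N.Normal ∧ IsOpen (N : Set (GK K)) ∧
    (∃ g : GK K, ∀ σ : GK K, ∃ i : ℕ, (g ^ i)⁻¹ * σ ∈ N) ∧ N.index ∣ q ^ m := by
  have hM0 : q ^ (m + 1) ≠ 0 := pow_ne_zero _ hq.ne_zero
  have : NeZero (q ^ (m + 1)) := ⟨hM0⟩
  obtain ⟨μ, hμ⟩ := HasEnoughRootsOfUnity.exists_primitiveRoot (AlgebraicClosure K) (q ^ (m + 1))
  let χ := hμ.autToPow K
  have hχ : ∀ σ : GK K, μ ^ (χ σ : ZMod (q ^ (m + 1))).val = σ μ := fun σ => hμ.autToPow_spec K σ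
  let φ : GK K →* (ZMod (q ^ (m + 1)))ˣ := (powMonoidHom (q - 1)).comp χ
  have hφ : ∀ σ, φ σ = χ (σ ^ (q - 1)) := fun σ => by
    change (χ σ) ^ (q - 1) = _
    rw [map_pow]
  have hχ1 : ∀ σ : GK K, χ σ = 1 ↔ σ μ = μ := by
    intro σ
    constructor
    · intro h
      rw [← hχ σ, h, Units.val_one]
      rcases Nat.lt_or_ge 1 (q ^ (m + 1)) with h1 | h1
      · have : Fact (1 < q ^ (m + 1)) := ⟨h1⟩
        rw [ZMod.val_one, pow_one]
      · exact absurd h1 (not_le.2 (Nat.one_lt_pow (Nat.succ_ne_zero m) hq.one_lt))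
    · intro h
      apply Units.ext
      apply ZMod.val_injective
      have h1 : μ ^ (χ σ : ZMod (q ^ (m + 1))).val = μ ^ 1 := by rw [hχ, h, pow_one]
      have h2 : 1 < q ^ (m + 1) := Nat.one_lt_pow (Nat.succ_ne_zero m) hq.one_lt
      have : Fact (1 < q ^ (m + 1)) := ⟨h2⟩
      rw [hμ.pow_inj (ZMod.val_lt _) h2 h1, Units.val_one, ZMod.val_one]
  have hmem : ∀ σ : GK K, σ ∈ φ.ker ↔ (σ ^ (q - 1)) μ = μ := fun σ => by
    rw [MonoidHom.mem_ker, hφ, hχ1]
  refine ⟨φ.ker, ?_, inferInstance, ?_, ?_, ?_⟩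
  · intro σ
    rw [hmem]
    constructor
    · intro h ζ hζ
      obtain ⟨i, -, rfl⟩ := hμ.eq_pow_of_pow_eq_one hζ
      rw [map_pow, h]
    · intro h
      exact h μ hμ.pow_eq_one
  · have hfd : FiniteDimensional K (IntermediateField.adjoin K {μ}) :=
      IntermediateField.adjoin.finiteDimensional (Algebra.IsIntegral.isIntegral μ)
    refine Subgroup.isOpen_mono (H₁ := (IntermediateField.adjoin K {μ}).fixingSubgroup) ?_
      (IntermediateField.fixingSubgroup_isOpen _)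
    intro σ hσ
    rw [IntermediateField.mem_fixingSubgroup_iff] at hσ
    have h1 : σ μ = μ := hσ μ (IntermediateField.mem_adjoin_simple_self K μ)
    rw [MonoidHom.mem_ker]
    change (χ σ) ^ (q - 1) = 1
    rw [(hχ1 σ).2 h1, one_pow]
  · have hcyc : IsCyclic (ZMod (q ^ (m + 1)))ˣ := ZMod.isCyclic_units_of_prime_pow q hq hq2 _
    have hcyc' : IsCyclic φ.range := inferInstance
    obtain ⟨⟨_, g, rfl⟩, hg⟩ := hcyc'.exists_zpow_surjective
    refine ⟨g, fun σ => ?_⟩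
    obtain ⟨i, hi⟩ := hg ⟨φ σ, σ, rfl⟩
    have hi' : (φ g) ^ i = φ σ := congrArg Subtype.val hi
    obtain ⟨j, hj⟩ : ∃ j : ℕ, (φ g) ^ j = (φ g) ^ i :=
      mem_powers_iff_mem_zpowers.2 ⟨i, rfl⟩
    refine ⟨j, ?_⟩
    rw [MonoidHom.mem_ker, map_mul, map_inv, map_pow, hj, hi', inv_mul_cancel]
  · have hcyc : IsCyclic (ZMod (q ^ (m + 1)))ˣ := ZMod.isCyclic_units_of_prime_pow q hq hq2 _
    have hcyc' : IsCyclic φ.range := inferInstance
    obtain ⟨g, hg⟩ := hcyc'.exists_generator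
    have h1 : φ.ker.index = Nat.card φ.range := Subgroup.index_ker φ
    have h2 : Nat.card φ.range = orderOf g := (orderOf_eq_card_of_forall_mem_zpowers hg).symm
    rw [h1, h2]
    apply orderOf_dvd_of_pow_eq_one
    obtain ⟨_, σ, rfl⟩ := g
    apply Subtype.ext
    change ((χ σ) ^ (q - 1)) ^ q ^ m = 1
    rw [← pow_mul]
    have h3 : (q - 1) * q ^ m = Nat.totient (q ^ (m + 1)) := by
      rw [Nat.totient_prime_pow_succ hq, mul_comm]
    rw [h3]
    exact ZMod.pow_totient _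

theorem layer_noSmall {q m X : ℕ} (hq : q.Prime) (hX : X < q) (hm : X ^ (q - 1) ≤ q ^ (m + 1))
    {N : Subgroup (GK K)}
    (hN : ∀ σ, σ ∈ N ↔ ∀ ζ : AlgebraicClosure K, ζ ^ q ^ (m + 1) = 1 → (σ ^ (q - 1)) ζ = ζ) :
    NoSmall X N := by
  intro v f σ hσ hf hσf
  have hv0 : 0 < Ideal.absNorm v.asIdeal := by
    rw [Nat.pos_iff_ne_zero, Ne, Ideal.absNorm_eq_zero_iff]
    exact v.ne_bot
  have hv1 : Ideal.absNorm v.asIdeal ≠ 1 := by
    rw [Ne, Ideal.absNorm_eq_one_iff]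
    exact v.isPrime.ne_top
  set n := Ideal.absNorm v.asIdeal with hn
  by_cases hqv : ((q : 𝓞 K)) ∈ v.asIdeal
  · -- above `q`
    have h1 : q ∣ n := by
      have h2 : Ideal.absNorm v.asIdeal ∣ Ideal.absNorm (Ideal.span {(q : 𝓞 K)}) := by
        apply Ideal.absNorm_dvd_absNorm_of_le
        rw [Ideal.span_le, Set.singleton_subset_iff]
        exact hqv
      obtain ⟨d, h3⟩ : ∃ d, Ideal.absNorm (Ideal.span {(q : 𝓞 K)}) = q ^ d := by
        rw [Ideal.absNorm_span_singleton]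
        have : (q : 𝓞 K) = algebraMap ℤ (𝓞 K) q := by simp
        rw [this, Algebra.norm_algebraMap_of_basis (RingOfIntegers.basis K)]
        rw [Int.natAbs_pow, Int.natAbs_natCast]
        exact ⟨_, rfl⟩
      rw [h3, ← hn] at h2
      obtain ⟨i, -, hi⟩ := (Nat.dvd_prime_pow hq).1 h2
      rw [hi]
      have : i ≠ 0 := by
        rintro rfl
        exact hv1 (by rw [hi, pow_zero])
      exact dvd_pow_self q this
    calc X < q := hX
      _ ≤ n := Nat.le_of_dvd hv0 h1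
      _ ≤ n ^ f := Nat.le_self_pow hf.ne' n
  · have hM0 : 0 < q ^ (m + 1) := pow_pos hq.pos _
    have : NeZero (q ^ (m + 1)) := ⟨hM0.ne'⟩
    have hM : ((q ^ (m + 1) : ℕ) : 𝓞 K) ∉ v.asIdeal := by
      intro h
      rw [Nat.cast_pow] at h
      exact hqv (v.isPrime.mem_of_pow_mem _ h)
    obtain ⟨μ, hμ⟩ := HasEnoughRootsOfUnity.exists_primitiveRoot (AlgebraicClosure K) (q ^ (m + 1))
    have h1 := frob_root hσf hM0 hM hμ.pow_eq_one
    rw [← hn] at h1
    have h2 : ∀ i : ℕ, (σ ^ i) μ = μ ^ (n ^ f) ^ i := by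
      intro i
      induction i with
      | zero => simp
      | succ i ih =>
        rw [pow_succ', AlgEquiv.mul_apply, ih, map_pow, h1, ← pow_mul, ← pow_succ']
    have h3 := (hN σ).1 hσ μ hμ.pow_eq_one
    rw [h2] at h3
    have hn2 : 2 ≤ n := by omega
    have hq1 : q - 1 ≠ 0 := by have := hq.two_le; omega
    have h5 : 1 < (n ^ f) ^ (q - 1) :=
      Nat.one_lt_pow hq1 (Nat.one_lt_pow hf.ne' (by omega))
    have hμ0 : μ ≠ 0 := hμ.ne_zero hM0.ne'
    have h6 : q ^ (m + 1) ∣ (n ^ f) ^ (q - 1) - 1 := by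
      apply hμ.dvd_of_pow_eq_one
      have h4 : μ ^ ((n ^ f) ^ (q - 1) - 1) * μ = μ := by
        rw [← pow_succ, Nat.sub_add_cancel h5.le, h3]
      exact mul_eq_right₀ hμ0 |>.1 h4
    have h7 := Nat.le_of_dvd (by omega) h6
    by_contra hcon
    push Not at hcon
    have h8 := Nat.pow_le_pow_left hcon (q - 1)
    omega

end Pool.Agent.H53.LD
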