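import Pool.Agent.H53.LD.Char
import Pool.Agent.H53.LD.Cyc
import Pool.Agent.H53.DC.NT

/-!
# Descent from one extension of large degree
-/

set_option autoImplicit false
set_option linter.unusedSectionVars false

namespace Pool.Agent.H53.LD

open NumberField IsDedekindDomain Polynomial Topology
open Pool.Agent.W401.Cheb (GK IsFrob IsInert)
open Pool.Agent.N60.GD (IrrOn conj_of_trace)
open Pool.Agent.Q15.GR (frob_dense isFrob_conj)
open Pool.Agent.H53.DC

section

variable {K : Type} [Field K] [NumberField K]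

/-- a continuous function on an open set which takes values in a closed set at the Frobenius
elements -/
theorem mem_on_open {X : Type*} [TopologicalSpace X]
    {S : Set (HeightOneSpectrum (𝓞 K))} (hS : S.Finite) {W : Set (GK K)} (hW : IsOpen W)
    {F : W → X} (hF : Continuous F) {C : Set X} (hC : IsClosed C)
    (h : ∀ y : W, (∃ v ∉ S, IsFrob v (y : GK K)) → F y ∈ C) (y : W) : F y ∈ C := by
  have hd : Dense {y : W | ∃ v ∉ S, IsFrob v (y : GK K)} :=
    (frob_dense S hS).preimage hW.isOpenMap_subtype_val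
  have h1 : {y : W | ∃ v ∉ S, IsFrob v (y : GK K)} ⊆ F ⁻¹' C := fun y hy => h y hy
  have h2 := (hC.preimage hF).closure_subset_iff.2 h1
  rw [hd.closure_eq] at h2
  exact h2 (Set.mem_univ y)

theorem isFrobPow_pow {v : HeightOneSpectrum (𝓞 K)} {m : ℕ} {σ : GK K} (h : IsFrobPow v m σ)
    (f : ℕ) : IsFrobPow v (m * f) (σ ^ f) := by
  obtain ⟨Q, hQ1, hQ2, hQ3⟩ := h
  refine ⟨Q, hQ1, hQ2, ?_⟩
  induction f with
  | zero => intro x; simp
  | succ f ih =>
    intro x
    have h1 := ih (σ • x)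
    have h2 : (x ^ (Ideal.absNorm v.asIdeal) ^ m - σ • x) ∣
        (x ^ (Ideal.absNorm v.asIdeal) ^ m) ^ (Ideal.absNorm v.asIdeal) ^ (m * f) -
          (σ • x) ^ (Ideal.absNorm v.asIdeal) ^ (m * f) := sub_dvd_pow_sub_pow _ _ _
    obtain ⟨c, hc⟩ := h2
    have h3 : σ ^ (f + 1) • x - x ^ (Ideal.absNorm v.asIdeal) ^ (m * (f + 1)) =
        (σ ^ f • σ • x - (σ • x) ^ (Ideal.absNorm v.asIdeal) ^ (m * f)) +
          (σ • x - x ^ (Ideal.absNorm v.asIdeal) ^ m) * c := by
      have h4 : x ^ (Ideal.absNorm v.asIdeal) ^ (m * (f + 1)) =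
          (x ^ (Ideal.absNorm v.asIdeal) ^ m) ^ (Ideal.absNorm v.asIdeal) ^ (m * f) := by
        rw [← pow_mul, ← pow_add]
        congr 2
        ring
      rw [h4, pow_succ, mul_smul]
      linear_combination -hc
    rw [h3]
    exact Q.add_mem h1 (Q.mul_mem_right _ (hQ3 x))

theorem inert_pow {v : HeightOneSpectrum (𝓞 K)} {σ : GK K} (h : IsInert v σ) (f : ℕ) :
    IsInert v (σ ^ f) := by
  obtain ⟨Q, hQ1, hQ2, hQ3⟩ := h
  refine ⟨Q, hQ1, hQ2, ?_⟩
  induction f with
  | zero => intro x; simp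
  | succ f ih =>
    intro x
    have h1 := Q.add_mem (ih (σ • x)) (hQ3 x)
    rw [pow_succ, mul_smul]
    convert h1 using 1
    ring

end

section unip

variable {k : Type*} [Field k] [CharZero k] {n : ℕ}

/-- a unipotent matrix of finite order is trivial -/
theorem eq_one_of_unipotent {A : Matrix (Fin n) (Fin n) k} (hA : A.charpoly = (X - C 1) ^ n)
    {f : ℕ} (hf : f ≠ 0) (h : A ^ f = 1) : A = 1 := by
  have h1 : (A - 1) ^ n = 0 := by
    have h2 := A.aeval_self_charpoly
    rw [hA] at h2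
    simpa using h2
  have hcop : IsCoprime (∑ i ∈ Finset.range f, (X : k[X]) ^ i) ((X - C 1) ^ n) := by
    refine IsCoprime.pow_right ?_
    refine IsCoprime.symm ?_
    rw [(irreducible_X_sub_C (1 : k)).coprime_iff_not_dvd, dvd_iff_isRoot, IsRoot.def,
      eval_finsetSum]
    simp [hf]
  obtain ⟨a, b, hab⟩ := hcop
  have h2 := congrArg (aeval A) hab
  have h3 : aeval A ((X : k[X]) - C 1) = A - 1 := by simp
  rw [map_add, map_mul, map_mul, map_pow, h3, h1, mul_zero, add_zero, map_one] at h2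
  have h4 : (aeval A (∑ i ∈ Finset.range f, (X : k[X]) ^ i)) * (A - 1) = 0 := by
    rw [← h3, ← map_mul]
    have h5 : (∑ i ∈ Finset.range f, (X : k[X]) ^ i) * (X - C 1) = X ^ f - 1 := by
      rw [C_1]
      exact geom_sum_mul X f
    rw [h5]
    simp [h]
  have h5 : A - 1 = 0 := by
    calc A - 1 = (aeval A a * aeval A (∑ i ∈ Finset.range f, (X : k[X]) ^ i)) * (A - 1) := by
          rw [h2, one_mul]
      _ = 0 := by rw [mul_assoc, h4, mul_zero]
  exact sub_eq_zero.1 h5

end unip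

section main

variable {l : ℕ} [Fact l.Prime] (E : IntermediateField ℚ_[l] (PadicAlgCl l))
  [FiniteDimensional ℚ_[l] E] (n : ℕ)
  {K : Type} [Field K] [NumberField K]

/-- every prime factor of the index is large -/
def LargeIndex (N : Subgroup (GK K)) : Prop :=
  ∀ q : ℕ, q.Prime → q ∣ N.index → l ^ (n ^ 2 * Module.finrank ℚ_[l] E) < q

theorem isClosed_E : IsClosed (E : Set (PadicAlgCl l)) :=
  Submodule.closed_of_finiteDimensional (IntermediateField.toSubalgebra E).toSubmodule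

/-- **Descent from one extension.** -/
theorem descent {N : Subgroup (GK K)} [N.Normal] (hN : IsOpen (N : Set (GK K)))
    (hbig : LargeIndex E n N) {S : Set (HeightOneSpectrum (𝓞 K))} (hS : S.Finite)
    {α : HeightOneSpectrum (𝓞 K) → Fin n → PadicAlgCl l} {δ : GK K →* (PadicAlgCl l)ˣ}
    (hδ : IsDeterminant S α δ) (hE : ∀ v ∉ S, CoeffIn E (∏ i, (X - C (α v i))))
    {ρ : N →* GL (Fin n) (PadicAlgCl l)} (hρ : Good N S α N ρ) :
    ∃ R : GK K →* GL (Fin n) (PadicAlgCl l), Continuous R ∧ Attached S α R ∧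
      (∀ σ, Matrix.GeneralLinearGroup.det (R σ) = δ σ) ∧ ∀ σ : N, R σ = ρ σ := by
  classical
  have hl : l.Prime := Fact.out
  have hn : 0 < n := hρ.2.1.1
  have hidx : N.index ≠ 0 := by
    have : Finite (GK K ⧸ N) := Subgroup.quotient_finite_of_isOpen N hN
    exact Subgroup.index_ne_zero_of_finite (hH := this)
  have hd1 : 0 < Module.finrank ℚ_[l] E := Module.finrank_pos
  have hcop : N.index.Coprime n := by
    by_contra hc
    obtain ⟨q, hq, h1, h2⟩ := Nat.Prime.not_coprime_iff_dvd.1 hc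
    have h3 := hbig q hq h1
    have h4 := Nat.le_of_dvd hn h2
    have h5 : n < l ^ n := Nat.lt_pow_self hl.one_lt
    have h6 : l ^ n ≤ l ^ (n ^ 2 * Module.finrank ℚ_[l] E) :=
      Nat.pow_le_pow_right hl.pos (by nlinarith)
    omega
  let s : GK K → GL (Fin n) (PadicAlgCl l) := fun g => if h : g ∈ N then ρ ⟨g, h⟩ else 1
  have hs : ∀ g (h : g ∈ N), s g = ρ ⟨g, h⟩ := fun g h => dif_pos h
  have hconj : ∀ (g u : GK K), u ∈ N → g * u * g⁻¹ ∈ N := fun g u hu =>
    Subgroup.Normal.conj_mem inferInstance u hu g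
  have htr : ∀ g : GK K, ∀ u ∈ N,
      (s (g * u * g⁻¹) : Matrix (Fin n) (Fin n) (PadicAlgCl l)).trace =
        (s u : Matrix (Fin n) (Fin n) (PadicAlgCl l)).trace := by
    intro g u hu
    have hcg : Continuous fun y : GK K => g * y * g⁻¹ := by fun_prop
    have h1 := eq_on_open hS hN
      (f := fun y : (N : Set (GK K)) =>
        (ρ ⟨g * y * g⁻¹, hconj g y y.2⟩ : Matrix (Fin n) (Fin n) (PadicAlgCl l)).trace)
      (f' := fun y : (N : Set (GK K)) => (ρ y : Matrix (Fin n) (Fin n) (PadicAlgCl l)).trace)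
      (cont_trace (hρ.1.comp ((hcg.comp continuous_subtype_val).subtype_mk
        fun y : (N : Set (GK K)) => hconj g y y.2)))
      (cont_trace hρ.1) (by
        rintro ⟨y, hy⟩ ⟨v, hv, hyv⟩
        change (ρ ⟨g * y * g⁻¹, hconj g y hy⟩ : Matrix (Fin n) (Fin n) (PadicAlgCl l)).trace =
          (ρ ⟨y, hy⟩ : Matrix (Fin n) (Fin n) (PadicAlgCl l)).trace
        apply trace_of_charpoly hn
        rw [(hρ.2.2 v hv).2 1 ⟨g * y * g⁻¹, hconj g y hy⟩ one_pos
            (isFrobPow_one.2 (isFrob_conj hyv g)),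
          (hρ.2.2 v hv).2 1 ⟨y, hy⟩ one_pos (isFrobPow_one.2 hyv)])
    rw [hs _ (hconj g u hu), hs _ hu]
    exact congrFun h1 ⟨u, hu⟩
  have hdet : ∀ u ∈ N, Matrix.GeneralLinearGroup.det (s u) = δ u := by
    intro u hu
    have h1 := eq_on_open hS hN
      (f := fun y : (N : Set (GK K)) => (ρ y : Matrix (Fin n) (Fin n) (PadicAlgCl l)).det)
      (f' := fun y : (N : Set (GK K)) => ((δ y : (PadicAlgCl l)ˣ) : PadicAlgCl l))
      (cont_det hρ.1) (Units.continuous_val.comp (hδ.1.comp continuous_subtype_val)) (by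
        rintro ⟨y, hy⟩ ⟨v, hv, hyv⟩
        change (ρ ⟨y, hy⟩ : Matrix (Fin n) (Fin n) (PadicAlgCl l)).det =
          ((δ y : (PadicAlgCl l)ˣ) : PadicAlgCl l)
        have h2 := (hρ.2.2 v hv).2 1 ⟨y, hy⟩ one_pos (isFrobPow_one.2 hyv)
        rw [det_of_charpoly h2, hδ.2 v hv y hyv]
        simp only [pow_one])
    apply Units.ext
    rw [hs _ hu, Matrix.GeneralLinearGroup.val_det_apply]
    exact congrFun h1 ⟨u, hu⟩
  have hirr : IrrOn (N : Set (GK K)) s := ⟨hn, fun W hW => hρ.2.1.2 W fun σ hσ w hw => by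
    have h1 := hW σ hσ w hw
    rw [hs _ σ.2] at h1
    exact h1⟩
  obtain ⟨R, hRN, hRdet⟩ := ext_exists hcop hidx (τ := s)
    (fun u hu v hv => by rw [hs _ hu, hs _ hv, hs _ (mul_mem hu hv), ← map_mul]; rfl)
    hirr htr δ hdet
  have hRρ : ∀ σ : N, R σ = ρ σ := fun σ => by rw [hRN σ σ.2, hs _ σ.2]
  -- continuity
  have hRcont : Continuous R := by
    refine continuous_of_continuousAt_one R ?_
    have h2 : (R ∘ (Subtype.val : N → GK K)) = ρ := funext hRρ
    have h1 : Continuous (R ∘ (Subtype.val : N → GK K)) := by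
      rw [h2]
      exact hρ.1
    have h3 : IsOpenEmbedding (Subtype.val : N → GK K) := hN.isOpenEmbedding_subtypeVal
    exact (h3.continuousAt_iff (f := (Subtype.val : N → GK K)) (g := R)
      (x := (1 : N))).1 h1.continuousAt
  have hirrR : IrrOn (N : Set (GK K)) R := ⟨hn, fun W hW => hρ.2.1.2 W fun σ hσ w hw => by
    have h1 := hW σ hσ w hw
    rw [hRρ σ] at h1
    exact h1⟩
  -- the coefficients
  have hcoeffdeg : ∀ v ∉ S, (∑ i, α v i) ∈ E ∧ (∏ i, α v i) ∈ E := by
    intro v hv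
    have hm : (∏ i, (X - C (α v i))) = ∏ i ∈ Finset.univ, (X - C (α v i)) := rfl
    constructor
    · have h1 := hE v hv (n - 1)
      have h2 : (∏ i, (X - C (α v i))).coeff (n - 1) = -∑ i, α v i := by
        have h3 := Polynomial.prod_X_sub_C_coeff_card_pred (Finset.univ : Finset (Fin n)) (α v)
          (by simpa using hn)
        simpa using h3
      rw [h2] at h1
      simpa using E.neg_mem h1
    · have h1 := hE v hv 0
      have h2 : (∏ i, (X - C (α v i))).coeff 0 = (-1) ^ n * ∏ i, α v i := by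
        rw [coeff_zero_eq_eval_zero, eval_prod]
        simp only [eval_sub, eval_X, eval_C, zero_sub]
        rw [Finset.prod_neg, Finset.card_univ, Fintype.card_fin]
      rw [h2] at h1
      have h3 := E.mul_mem (pow_mem (E.neg_mem E.one_mem) n) h1
      rw [← mul_assoc, ← mul_pow] at h3
      simpa using h3
  have htrE : ∀ u ∈ N, (R u : Matrix (Fin n) (Fin n) (PadicAlgCl l)).trace ∈ E := by
    intro u hu
    have h1 := mem_on_open hS hN
      (F := fun y : (N : Set (GK K)) => (ρ y : Matrix (Fin n) (Fin n) (PadicAlgCl l)).trace)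
      (cont_trace hρ.1) (isClosed_E E) (by
        rintro ⟨y, hy⟩ ⟨v, hv, hyv⟩
        change (ρ ⟨y, hy⟩ : Matrix (Fin n) (Fin n) (PadicAlgCl l)).trace ∈ E
        have hne : Nonempty (Fin n) := ⟨⟨0, hn⟩⟩
        have h2 := (hρ.2.2 v hv).2 1 ⟨y, hy⟩ one_pos (isFrobPow_one.2 hyv)
        simp only [pow_one] at h2
        rw [Matrix.trace_eq_neg_charpoly_coeff, h2]
        exact E.neg_mem (hE v hv _)) ⟨u, hu⟩
    rw [hRN u hu, hs _ hu]
    exact h1
  have hdetE : ∀ g, (R g : Matrix (Fin n) (Fin n) (PadicAlgCl l)).det ∈ E := by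
    intro g
    have h1 := mem_on_open hS (W := Set.univ) isOpen_univ
      (F := fun y : (Set.univ : Set (GK K)) => ((δ y : (PadicAlgCl l)ˣ) : PadicAlgCl l))
      (Units.continuous_val.comp (hδ.1.comp continuous_subtype_val)) (isClosed_E E) (by
        rintro ⟨y, hy⟩ ⟨v, hv, hyv⟩
        change ((δ y : (PadicAlgCl l)ˣ) : PadicAlgCl l) ∈ E
        rw [hδ.2 v hv y hyv]
        exact (hcoeffdeg v hv).2) ⟨g, trivial⟩
    rw [← Matrix.GeneralLinearGroup.val_det_apply, hRdet]
    exact h1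
  have hcoeff : ∀ g, CoeffIn E (R g : Matrix (Fin n) (Fin n) (PadicAlgCl l)).charpoly := fun g =>
    coeff_extension hcop hirrR htrE hdetE g
  -- powers in `N`
  have hpow : ∀ g : GK K, g ^ N.index ∈ N := fun g => Subgroup.pow_index_mem N g
  refine ⟨R, hRcont, fun v hv => ⟨fun σ hσ => ?_, fun σ hσ => ?_⟩, hRdet, hRρ⟩
  · -- inertia
    have h1 : R σ ^ N.index = 1 := by
      rw [← map_pow, hRN _ (hpow σ), hs _ (hpow σ)]
      exact (hρ.2.2 v hv).1 ⟨_, hpow σ⟩ (inert_pow hσ _)
    have h1' : (R σ : Matrix (Fin n) (Fin n) (PadicAlgCl l)) ^ N.index = 1 := by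
      rw [← Units.val_pow_eq_pow_val, h1, Units.val_one]
    have h2 : (R σ : Matrix (Fin n) (Fin n) (PadicAlgCl l)).charpoly =
        ∏ _i : Fin n, (X - C (1 : PadicAlgCl l)) := by
      refine charpoly_eq (E := E) _ (fun _ => 1) (hcoeff σ) ?_ ?_ (fun _ => one_ne_zero) hidx hbig ?_
      · rw [Finset.prod_const, Finset.card_univ, Fintype.card_fin]
        intro i
        rw [C_1, ← map_one (algebraMap E (PadicAlgCl l)[X])]
        have h3 : ((X - 1 : (PadicAlgCl l)[X]) ^ n).coeff i ∈ E := by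
          have h4 : ((X - 1 : E[X]) ^ n).map (algebraMap E (PadicAlgCl l)) =
              (X - 1 : (PadicAlgCl l)[X]) ^ n := by simp
          rw [← h4, coeff_map]
          exact (((X - 1 : E[X]) ^ n).coeff i).2
        simpa using h3
      · rw [← Matrix.GeneralLinearGroup.val_det_apply]
        exact Units.ne_zero _
      · rw [h1']
        simp [Matrix.charpoly_one]
    rw [Finset.prod_const, Finset.card_univ, Fintype.card_fin] at h2
    exact Units.ext (eq_one_of_unipotent h2 hidx h1')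
  · -- Frobenius
    have h0 : IsFrobPow v 1 σ := isFrobPow_one.2 hσ
    have h1 := isFrobPow_pow h0 N.index
    rw [one_mul] at h1
    refine charpoly_eq (E := E) _ (α v) (hcoeff σ) (hE v hv) ?_ (fun i hi => ?_) hidx hbig ?_
    · rw [← Matrix.GeneralLinearGroup.val_det_apply]
      exact Units.ne_zero _
    · have h2 := hδ.2 v hv σ hσ
      rw [Finset.prod_eq_zero (Finset.mem_univ i) hi] at h2
      exact Units.ne_zero _ h2
    · have h2 := (hρ.2.2 v hv).2 N.index ⟨_, hpow σ⟩ (Nat.pos_of_ne_zero hidx) h1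
      rw [← h2, ← Units.val_pow_eq_pow_val, ← map_pow, hRN _ (hpow σ), hs _ (hpow σ)]

end main

end Pool.Agent.H53.LD
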