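import Pool.Agent.H53.LD.Desc

/-!
# One extension suffices: the statements
-/

set_option autoImplicit false
set_option linter.unusedSectionVars false

namespace Pool.Agent.H53.LD

open NumberField IsDedekindDomain Polynomial Topology
open Pool.Agent.W401.Cheb (GK IsFrob IsInert)
open Pool.Agent.N60.GD (IrrOn)
open Pool.Agent.H53.DC

variable {l : ℕ} [Fact l.Prime] (E : IntermediateField ℚ_[l] (PadicAlgCl l))
  (n : ℕ) {K : Type} [Field K] [NumberField K]

/-- **The extension `F` of `K` with `N = Gal(K̄/F)` suffices.**  For every system `α` of dimension `n`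
over `K` with coefficients in `E` and a determinant `δ`: every continuous irreducible representation
`ρ` of `Gal(K̄/F)` which is attached to the base change of `α` to `F` is the restriction of a unique
continuous representation `R` of `Gal(K̄/K)` with determinant `δ` which is attached to `α`, at all `v`
outside `S`. -/
def Suffices (N : Subgroup (GK K)) : Prop :=
  ∀ (S : Set (HeightOneSpectrum (𝓞 K))) (α : HeightOneSpectrum (𝓞 K) → Fin n → PadicAlgCl l)
    (δ : GK K →* (PadicAlgCl l)ˣ), S.Finite → IsDeterminant S α δ →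
    (∀ v ∉ S, CoeffIn E (∏ i, (X - C (α v i)))) →
    ∀ ρ : N →* GL (Fin n) (PadicAlgCl l), Good N S α N ρ →
      ∃! R : GK K →* GL (Fin n) (PadicAlgCl l), Continuous R ∧ Attached S α R ∧
        (∀ σ, Matrix.GeneralLinearGroup.det (R σ) = δ σ) ∧ ∀ σ : N, R σ = ρ σ

/-- `N = Gal(K̄/F)`, where `F` is the layer of degree dividing `q ^ m` of the cyclotomic
`ℤ_q`-extension of `K`: the automorphisms whose `(q - 1)`-th power fixes the roots of unity of order
`q ^ (m + 1)`. -/
def IsLayer (q m : ℕ) (N : Subgroup (GK K)) : Prop :=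
  ∀ σ : GK K, σ ∈ N ↔ ∀ ζ : AlgebraicClosure K, ζ ^ q ^ (m + 1) = 1 → (σ ^ (q - 1)) ζ = ζ

/-- `N` is open and normal, and the quotient is cyclic. -/
def OpenCyclic (N : Subgroup (GK K)) : Prop :=
  IsOpen (N : Set (GK K)) ∧ N.Normal ∧ ∃ g : GK K, ∀ σ : GK K, ∃ i : ℕ, (g ^ i)⁻¹ * σ ∈ N

variable [FiniteDimensional ℚ_[l] E]

theorem suffices_of_large {N : Subgroup (GK K)} [N.Normal] (hN : IsOpen (N : Set (GK K)))
    (hbig : LargeIndex E n N) : Suffices E n N := by
  intro S α δ hS hδ hE ρ hρ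
  obtain ⟨R, h1, h2, h3, h4⟩ := descent E n hN hbig hS hδ hE hρ
  refine ⟨R, ⟨h1, h2, h3, h4⟩, ?_⟩
  rintro R' ⟨-, -, h3', h4'⟩
  have hl : l.Prime := Fact.out
  have hn : 0 < n := hρ.2.1.1
  have hd1 : 0 < Module.finrank ℚ_[l] E := Module.finrank_pos
  have hcop : N.index.Coprime n := by
    by_contra hc
    obtain ⟨q, hq, h1, h2⟩ := Nat.Prime.not_coprime_iff_dvd.1 hc
    have h3 := hbig q hq h1
    have h4 := Nat.le_of_dvd hn h2
    have h5 : n < l ^ n := Nat.lt_pow_self hl.one_lt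
    have h6 : l ^ n ≤ l ^ (n ^ 2 * Module.finrank ℚ_[l] E) :=
      Nat.pow_le_pow_right hl.pos (by nlinarith)
    omega
  have hirrR : IrrOn (N : Set (GK K)) R := ⟨hn, fun W hW => hρ.2.1.2 W fun σ hσ w hw => by
    have h1 := hW σ hσ w hw
    rw [h4 σ] at h1
    exact h1⟩
  have key := ext_unique hcop hirrR (R' := R') (fun g => by rw [h3, h3']) 1 (fun u hu => by
    rw [h4 ⟨u, hu⟩, h4' ⟨u, hu⟩]
    simp)
  apply MonoidHom.ext
  intro g
  rw [key g]
  simp

theorem exists_suffices (hn : 0 < n) {X q m : ℕ} (hq : q.Prime) (hX : X < q)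
    (hbig : l ^ (n ^ 2 * Module.finrank ℚ_[l] E) < q) (hm : X ^ (q - 1) ≤ q ^ (m + 1)) :
    ∃ N : Subgroup (GK K), IsLayer q m N ∧ OpenCyclic N ∧ N.index ∣ q ^ m ∧ NoSmall X N ∧
      Suffices E n N := by
  have hl : l.Prime := Fact.out
  have hd1 : 0 < Module.finrank ℚ_[l] E := Module.finrank_pos
  have hq2 : q ≠ 2 := by
    rintro rfl
    have h1 : n ^ 2 * Module.finrank ℚ_[l] E ≠ 0 := by positivity
    have h2 : l ≤ l ^ (n ^ 2 * Module.finrank ℚ_[l] E) := Nat.le_self_pow h1 l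
    have := hl.two_le
    omega
  obtain ⟨N, h1, h2, h3, h4, h5⟩ := exists_layer (K := K) q m hq hq2
  have hlarge : LargeIndex E n N := by
    intro p hp hpN
    have h6 : p ∣ q := hp.dvd_of_dvd_pow (hpN.trans h5)
    rw [(Nat.prime_dvd_prime_iff_eq hp hq).1 h6]
    exact hbig
  exact ⟨N, h1, ⟨h3, h2, h4⟩, h5, layer_noSmall hq hX hm h1, suffices_of_large E n h3 hlarge⟩

theorem exists_noSmall (K : Type) [Field K] [NumberField K] (hn : 0 < n) (X : ℕ) :
    ∃ N : Subgroup (GK K), OpenCyclic N ∧ NoSmall X N ∧ Suffices E n N := by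
  obtain ⟨q, hq1, hq⟩ := Nat.exists_infinite_primes
    (max (X + 1) (l ^ (n ^ 2 * Module.finrank ℚ_[l] E) + 1))
  have h1 : X < q := lt_of_lt_of_le (Nat.lt_succ_self X) ((le_max_left _ _).trans hq1)
  have h2 : l ^ (n ^ 2 * Module.finrank ℚ_[l] E) < q :=
    lt_of_lt_of_le (Nat.lt_succ_self _) ((le_max_right _ _).trans hq1)
  obtain ⟨N, -, h3, -, h4, h5⟩ := exists_suffices (K := K) E n hn hq h1 h2
    (m := X ^ (q - 1)) (by
      have h6 : X ^ (q - 1) + 1 < q ^ (X ^ (q - 1) + 1) := Nat.lt_pow_self hq.one_lt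
      omega)
  exact ⟨N, h3, h4, h5⟩

end Pool.Agent.H53.LD
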