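import Mathlib

/-!
# Roots of unity of large prime order have large degree over `p`-adic fields
-/

set_option autoImplicit false

namespace Pool.Agent.H53.LD

open Polynomial IntermediateField

/-- A root of unity of prime order `q` in a finite extension of `ℚ_l` of degree `d` satisfies
`q ≤ l ^ d`. -/
theorem prime_le {l q : ℕ} [Fact l.Prime] (hq : q.Prime) {ζ : PadicAlgCl l} (h1 : ζ ^ q = 1)
    (h2 : ζ ≠ 1) : q ≤ l ^ (minpoly ℚ_[l] ζ).natDegree := by
  have hl : l.Prime := Fact.out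
  have hintQ : IsIntegral ℚ_[l] ζ :=
    ⟨X ^ q - 1, monic_X_pow_sub_C 1 hq.ne_zero, by simp [h1]⟩
  have hd : 0 < (minpoly ℚ_[l] ζ).natDegree := minpoly.natDegree_pos hintQ
  by_cases hql : q = l
  · rw [hql]
    exact Nat.le_self_pow hd.ne' l
  have hint : IsIntegral ℤ_[l] ζ :=
    ⟨X ^ q - 1, monic_X_pow_sub_C 1 hq.ne_zero, by simp [h1]⟩
  have hmin : minpoly ℚ_[l] ζ = (minpoly ℤ_[l] ζ).map (algebraMap ℤ_[l] ℚ_[l]) :=
    minpoly.isIntegrallyClosed_eq_field_fractions' ℚ_[l] hint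
  set P := minpoly ℤ_[l] ζ with hP
  have hPm : P.Monic := minpoly.monic hint
  have hdeg : (minpoly ℚ_[l] ζ).natDegree = P.natDegree := by
    rw [hmin, hPm.natDegree_map]
  rw [hdeg] at hd ⊢
  have hsum : ∑ i ∈ Finset.range q, ζ ^ i = 0 := by
    have h3 := mul_geom_sum ζ q
    rw [h1, sub_self] at h3
    exact (mul_eq_zero.1 h3).resolve_left (sub_ne_zero.2 h2)
  have htf : Module.IsTorsionFree ℤ_[l] (PadicAlgCl l) :=
    Module.IsTorsionFree.trans_faithfulSMul ℤ_[l] ℚ_[l] (PadicAlgCl l)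
  have hdvd : P ∣ ∑ i ∈ Finset.range q, X ^ i := by
    refine minpoly.isIntegrallyClosed_dvd hint ?_
    rw [map_sum]
    simpa using hsum
  let P' : (ZMod l)[X] := P.map PadicInt.toZMod
  have hP'm : P'.Monic := hPm.map _
  have hP'd : P'.natDegree = P.natDegree := hPm.natDegree_map _
  have hdvd' : P' ∣ ∑ i ∈ Finset.range q, X ^ i := by
    have := Polynomial.map_dvd (PadicInt.toZMod (p := l)) hdvd
    rwa [Polynomial.map_sum, Finset.sum_congr rfl fun i _ => by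
      rw [Polynomial.map_pow, map_X]] at this
  obtain ⟨f, hf, hfP⟩ := WfDvdMonoid.exists_irreducible_factor (a := P') (by
    intro hu
    have := natDegree_eq_zero_of_isUnit hu
    omega) hP'm.ne_zero
  have : Fact (Irreducible f) := ⟨hf⟩
  have hfd : f.natDegree ≤ P.natDegree := by
    rw [← hP'd]
    exact natDegree_le_of_dvd hfP hP'm.ne_zero
  let κ := AdjoinRoot f
  have hfin : Module.Finite (ZMod l) κ := (AdjoinRoot.powerBasis hf.ne_zero).finite
  have hrank : Module.finrank (ZMod l) κ = f.natDegree := by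
    rw [(AdjoinRoot.powerBasis hf.ne_zero).finrank, AdjoinRoot.powerBasis_dim]
  have hcard : Nat.card κ = l ^ f.natDegree := by
    rw [Module.natCard_eq_pow_finrank (K := ZMod l), Nat.card_zmod, hrank]
  have hfinκ : Finite κ := Module.finite_of_finite (ZMod l)
  let x : κ := AdjoinRoot.root f
  have hxs : ∑ i ∈ Finset.range q, x ^ i = 0 := by
    obtain ⟨g, hg⟩ := hfP.trans hdvd'
    have h3 := congrArg (AdjoinRoot.mk f) hg
    rw [map_sum, map_mul, AdjoinRoot.mk_self, zero_mul] at h3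
    simpa using h3
  have hxq : x ^ q = 1 := by
    have h3 := mul_geom_sum x q
    rw [hxs, mul_zero] at h3
    exact (sub_eq_zero.1 h3.symm)
  have hx1 : x ≠ 1 := by
    intro h
    rw [h] at hxs
    simp only [one_pow, Finset.sum_const, Finset.card_range, nsmul_eq_mul, mul_one] at hxs
    have : CharP κ l := charP_of_injective_algebraMap (algebraMap (ZMod l) κ).injective l
    rw [CharP.cast_eq_zero_iff κ l q] at hxs
    exact hql ((Nat.prime_dvd_prime_iff_eq hl hq).1 hxs).symm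
  have : Fact q.Prime := ⟨hq⟩
  have hord : orderOf x = q := orderOf_eq_prime hxq hx1
  have hx0 : x ≠ 0 := by
    intro h
    rw [h, zero_pow hq.ne_zero] at hxq
    exact zero_ne_one hxq
  have h3 : orderOf (Units.mk0 x hx0) ∣ Nat.card κˣ := orderOf_dvd_natCard _
  rw [← orderOf_units, Units.val_mk0, hord, Nat.card_units, hcard] at h3
  have h4 : 0 < l ^ f.natDegree - 1 := by
    have : 1 < l ^ f.natDegree := Nat.one_lt_pow hf.natDegree_pos.ne' hl.one_lt
    omega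
  have h5 := Nat.le_of_dvd h4 h3
  calc q ≤ l ^ f.natDegree - 1 := h5
    _ ≤ l ^ f.natDegree := Nat.sub_le _ _
    _ ≤ l ^ P.natDegree := Nat.pow_le_pow_right hl.pos hfd

section

variable {l : ℕ} [Fact l.Prime] (E : IntermediateField ℚ_[l] (PadicAlgCl l))
  [FiniteDimensional ℚ_[l] E]

/-- an element of degree at most `n` over `E` -/
def DegLE (n : ℕ) (x : PadicAlgCl l) : Prop := ∃ P : E[X], P.Monic ∧ P.natDegree ≤ n ∧ aeval x P = 0

variable {E}

theorem DegLE.adjoin {n : ℕ} {x : PadicAlgCl l} (h : DegLE E n x) :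
    FiniteDimensional E E⟮x⟯ ∧ Module.finrank E E⟮x⟯ ≤ n := by
  obtain ⟨P, hP, hd, hx⟩ := h
  have hint : IsIntegral E x := ⟨P, hP, hx⟩
  refine ⟨adjoin.finiteDimensional hint, ?_⟩
  rw [adjoin.finrank hint]
  exact (natDegree_le_of_dvd (minpoly.dvd E x hx) hP.ne_zero).trans hd

theorem eq_of_pow_eq {n : ℕ} {x y : PadicAlgCl l} (hx : DegLE E n x) (hy : DegLE E n y)
    (hy0 : y ≠ 0) {f : ℕ} (hf : f ≠ 0)
    (hbig : ∀ q : ℕ, q.Prime → q ∣ f → l ^ (n ^ 2 * Module.finrank ℚ_[l] E) < q)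
    (hxy : x ^ f = y ^ f) : x = y := by
  have hl : l.Prime := Fact.out
  by_contra hne
  let ζ := x / y
  have h1 : ζ ^ f = 1 := by
    simp only [ζ]
    rw [div_pow, hxy, div_self (pow_ne_zero f hy0)]
  have h2 : ζ ≠ 1 := fun h => hne ((div_eq_one_iff_eq hy0).1 h)
  have hm : orderOf ζ ∣ f := orderOf_dvd_of_pow_eq_one h1
  have hm1 : orderOf ζ ≠ 1 := fun h => h2 (orderOf_eq_one_iff.1 h)
  have hm0 : orderOf ζ ≠ 0 := fun h => hf (Nat.eq_zero_of_zero_dvd (h ▸ hm))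
  obtain ⟨q, hq, hqm⟩ := Nat.exists_prime_and_dvd hm1
  obtain ⟨m, hm'⟩ := hqm
  have hζ1 : (ζ ^ m) ^ q = 1 := by
    rw [← pow_mul, mul_comm, ← hm', pow_orderOf_eq_one]
  have hζ2 : ζ ^ m ≠ 1 := by
    intro h
    have h3 := orderOf_dvd_of_pow_eq_one h
    rw [hm'] at h3
    have hm0' : 0 < m := Nat.pos_of_ne_zero fun h => hm0 (by rw [hm', h, mul_zero])
    have h4 := Nat.le_of_dvd hm0' h3
    nlinarith [hq.two_le]
  have h3 := prime_le hq hζ1 hζ2
  have h4 := hbig q hq ((Dvd.intro m hm'.symm).trans hm)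
  obtain ⟨i1, j1⟩ := hx.adjoin
  obtain ⟨i2, j2⟩ := hy.adjoin
  have i3 : FiniteDimensional E ↥(E⟮x⟯ ⊔ E⟮y⟯) := inferInstance
  let L : IntermediateField E (PadicAlgCl l) := E⟮x⟯ ⊔ E⟮y⟯
  have hL : Module.finrank E L ≤ n ^ 2 := by
    refine (finrank_sup_le _ _).trans ?_
    rw [pow_two]
    exact Nat.mul_le_mul j1 j2
  have hxL : x ∈ L := (le_sup_left : E⟮x⟯ ≤ L) (mem_adjoin_simple_self E x)
  have hyL : y ∈ L := (le_sup_right : E⟮y⟯ ≤ L) (mem_adjoin_simple_self E y)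
  have hζL : ζ ^ m ∈ L := pow_mem (L.div_mem hxL hyL) m
  have i5 : IsScalarTower ℚ_[l] L (PadicAlgCl l) := IsScalarTower.of_algebraMap_eq fun _ => rfl
  have i4 : FiniteDimensional ℚ_[l] L := FiniteDimensional.trans ℚ_[l] E L
  have h5 : (minpoly ℚ_[l] (ζ ^ m)).natDegree ≤ Module.finrank ℚ_[l] L := by
    have h6 : minpoly ℚ_[l] (ζ ^ m) = minpoly ℚ_[l] (⟨ζ ^ m, hζL⟩ : L) :=
      (minpoly.algebraMap_eq (algebraMap L (PadicAlgCl l)).injective (⟨ζ ^ m, hζL⟩ : L))
    rw [h6]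
    exact minpoly.natDegree_le _
  have h7 : Module.finrank ℚ_[l] L ≤ n ^ 2 * Module.finrank ℚ_[l] E := by
    rw [← Module.finrank_mul_finrank ℚ_[l] E L, mul_comm]
    exact Nat.mul_le_mul_right _ hL
  have h8 : l ^ (minpoly ℚ_[l] (ζ ^ m)).natDegree ≤ l ^ (n ^ 2 * Module.finrank ℚ_[l] E) :=
    Nat.pow_le_pow_right hl.pos (h5.trans h7)
  omega

end

end Pool.Agent.H53.LD
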